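import Pool.Agent.Helper57.TW.Goals

/-!
# Packet CN of project T74 (helper57): the copies of the narrow periodic tent
-/

set_option autoImplicit false

open Finset Filter Topology

open scoped Classical ArithmeticFunction

namespace Pool.Agent.Helper22.TW

open Pool.Agent.Helper57.TW

theorem pe_nonneg (x : ℕ) (v η : ℝ) (n : ℕ) : 0 ≤ pe x v η n := le_max_left _ _

theorem pe_le_one {x : ℕ} (hx : 16 ≤ x) {v η : ℝ} (hη : 0 < η) (n : ℕ) : pe x v η n ≤ 1 := by
  unfold pe
  have hx1 : (1 : ℝ) < x := by exact_mod_cast (by omega : 1 < x)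
  have hl : 0 < Real.log x := Real.log_pos hx1
  apply max_le zero_le_one
  have : 0 ≤ |Real.log (n / v) / (4 * Real.log x)
      - round (Real.log (n / v) / (4 * Real.log x))| / (η / (4 * Real.log x)) := by positivity
  linarith

theorem fk_nonneg (x k n : ℕ) : 0 ≤ fk x k n := by
  unfold fk
  have h1 := ArithmeticFunction.vonMangoldt_nonneg (n := n)
  have h2 : 0 ≤ Real.log n := Real.log_natCast_nonneg n
  positivity

theorem pe_support {x n : ℕ} {v η : ℝ} (hx : 16 ≤ x) (hv : 0 < v) (hvx : v ≤ x) (hη : 0 < η)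
    (hη1 : η ≤ 1) (hn : 4 * x < n) (hp : pe x v η n ≠ 0) :
    ∃ r : ℕ, 1 ≤ r ∧ |Real.log n - (Real.log v + 4 * r * Real.log x)| < η := by
  have hx1 : (1 : ℝ) < x := by exact_mod_cast (by omega : 1 < x)
  have hx0 : (0 : ℝ) < x := by linarith
  have hlx : 0 < Real.log x := Real.log_pos hx1
  have hn0 : (0 : ℝ) < n := by exact_mod_cast (by omega : 0 < n)
  set u : ℝ := Real.log (n / v) / (4 * Real.log x) with hu
  set R : ℤ := round u with hR
  have h1 : |u - R| < η / (4 * Real.log x) := by
    by_contra h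
    push Not at h
    apply hp
    unfold pe
    rw [← hu, ← hR]
    apply max_eq_left
    have : 1 ≤ |u - R| / (η / (4 * Real.log x)) := by
      rw [le_div_iff₀ (by positivity), one_mul]
      exact h
    linarith
  rw [lt_div_iff₀ (by positivity)] at h1
  have hlog : Real.log (n / v) = Real.log n - Real.log v :=
    Real.log_div hn0.ne' hv.ne'
  have h2 : |Real.log n - (Real.log v + 4 * R * Real.log x)| < η := by
    have e : Real.log n - (Real.log v + 4 * R * Real.log x) = (u - R) * (4 * Real.log x) := by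
      rw [hu, hlog]
      field_simp
      ring
    rw [e, abs_mul, abs_of_pos (show 0 < 4 * Real.log x by positivity)]
    exact h1
  have h4 : Real.log 4 + Real.log v ≤ Real.log n := by
    rw [← Real.log_mul (by norm_num) hv.ne']
    apply Real.log_le_log (by positivity)
    have : (4 * x : ℝ) < n := by exact_mod_cast hn
    linarith
  have hl4 : 1 < Real.log 4 := by
    have e4 : Real.log 4 = 2 * Real.log 2 := by
      rw [show (4 : ℝ) = 2 ^ 2 by norm_num, Real.log_pow]
      push_cast
      ring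
    have := Real.log_two_gt_d9
    rw [e4]
    linarith
  have hr1 : 1 ≤ R := by
    by_contra h
    push Not at h
    have h3 : (R : ℝ) ≤ 0 := by exact_mod_cast (by omega : R ≤ 0)
    have h5 : (R : ℝ) * Real.log x ≤ 0 := mul_nonpos_of_nonpos_of_nonneg h3 hlx.le
    rw [abs_lt] at h2
    linarith [h2.2]
  obtain ⟨m, hm⟩ := Int.eq_ofNat_of_zero_le (by omega : 0 ≤ R)
  have hrm : (R : ℝ) = m := by
    rw [hm]
    norm_cast
  rw [hrm] at h2
  exact ⟨m, by omega, h2⟩

theorem card_le {q : ℕ} (hq : 1 ≤ q) (a : ℕ) {A B : ℝ} (hA : 0 ≤ A) (hAB : A ≤ B) :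
    (((Ioc ⌊A⌋₊ ⌊B⌋₊).filter (fun n => n ≡ a [MOD q])).card : ℝ) ≤ (B - A) / q + 2 := by
  have hq0 : (0 : ℝ) < q := by exact_mod_cast hq
  have hq0' : (0 : ℚ) < q := by exact_mod_cast hq
  have h1 := Nat.Ioc_filter_modEq_card ⌊A⌋₊ ⌊B⌋₊ (show 0 < q by omega) a
  have h2 : (⌊((⌊B⌋₊ : ℚ) - a) / q⌋ - ⌊((⌊A⌋₊ : ℚ) - a) / q⌋ : ℤ)
      ≤ ((⌊B⌋₊ : ℚ) - ⌊A⌋₊) / q + 1 := by
    have e1 := Int.floor_le (((⌊B⌋₊ : ℚ) - a) / q)
    have e2 := Int.lt_floor_add_one (((⌊A⌋₊ : ℚ) - a) / q)
    push_cast
    have e3 : ((⌊B⌋₊ : ℚ) - ⌊A⌋₊) / q = ((⌊B⌋₊ : ℚ) - a) / q - ((⌊A⌋₊ : ℚ) - a) / q := by ring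
    rw [e3]
    linarith
  have hBA : (⌊B⌋₊ : ℝ) - ⌊A⌋₊ ≤ B - A + 1 := by
    have e1 := Nat.floor_le (hA.trans hAB)
    have e2 := Nat.lt_floor_add_one A
    linarith
  have hfl : (⌊A⌋₊ : ℚ) ≤ ⌊B⌋₊ := by exact_mod_cast Nat.floor_le_floor hAB
  have h3 : ((((Ioc ⌊A⌋₊ ⌊B⌋₊).filter (fun n => n ≡ a [MOD q])).card : ℕ) : ℚ)
      ≤ ((⌊B⌋₊ : ℚ) - ⌊A⌋₊) / q + 1 := by
    have h4 : ((((Ioc ⌊A⌋₊ ⌊B⌋₊).filter (fun n => n ≡ a [MOD q])).card : ℤ) : ℚ)
        ≤ ((⌊B⌋₊ : ℚ) - ⌊A⌋₊) / q + 1 := by
      rw [h1]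
      push_cast
      apply max_le
      · push_cast at h2
        exact h2
      · have : 0 ≤ ((⌊B⌋₊ : ℚ) - ⌊A⌋₊) / q := div_nonneg (by linarith) hq0'.le
        linarith
    exact_mod_cast h4
  have h5 : ((((Ioc ⌊A⌋₊ ⌊B⌋₊).filter (fun n => n ≡ a [MOD q])).card : ℕ) : ℝ)
      ≤ ((⌊B⌋₊ : ℝ) - ⌊A⌋₊) / q + 1 := by
    have := (Rat.cast_le (K := ℝ)).2 h3
    push_cast at this
    exact this
  have h6 : ((⌊B⌋₊ : ℝ) - ⌊A⌋₊) / q ≤ (B - A) / q + 1 := by
    calc ((⌊B⌋₊ : ℝ) - ⌊A⌋₊) / q ≤ (B - A + 1) / q :=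
          div_le_div_of_nonneg_right hBA hq0.le
      _ = (B - A) / q + 1 / q := by ring
      _ ≤ _ := by
        have : 1 / (q : ℝ) ≤ 1 := by
          rw [div_le_one hq0]
          exact_mod_cast hq
        linarith
  linarith

theorem exp_sub_le {η : ℝ} (h0 : 0 ≤ η) (h1 : η ≤ 1) :
    Real.exp η - Real.exp (-η) ≤ 3 * η := by
  have e1 : Real.exp η ≤ 1 + η + η ^ 2 := by
    have := Real.abs_exp_sub_one_sub_id_le (x := η) (by rw [abs_of_nonneg h0]; exact h1)
    have h2 := (abs_le.1 this).2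
    linarith
  have e2 : 1 - η ≤ Real.exp (-η) := by
    have := Real.add_one_le_exp (-η)
    linarith
  nlinarith

theorem half_sum (N : ℕ) : ∑ m ∈ Icc 1 N, ((1 : ℝ) / 2) ^ m ≤ 1 := by
  have key : ∑ m ∈ Icc 1 N, ((1 : ℝ) / 2) ^ m = 1 - (1 / 2) ^ N := by
    induction N with
    | zero => simp
    | succ N ih =>
      rw [sum_Icc_succ_top (by omega), ih, pow_succ]
      ring
  have h4 : (0 : ℝ) ≤ (1 / 2) ^ N := by positivity
  rw [key]
  linarith

theorem r_bd {r k : ℕ} (hr : 1 ≤ r) (hk : 1 ≤ k) :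
    (4 * (r : ℝ) + 2) ^ (k + 1) * Real.exp (-(4 * r * k))
      ≤ 12 * Real.exp (-(2 * (k : ℝ))) * (1 / 2) ^ r := by
  obtain ⟨j, rfl⟩ : ∃ j, r = j + 1 := ⟨r - 1, by omega⟩
  have hk1 : (1 : ℝ) ≤ k := by exact_mod_cast hk
  have hj : (0 : ℝ) ≤ j := Nat.cast_nonneg j
  -- `4 r + 2 ≤ exp (2 r)`
  have he2 : (7 : ℝ) ≤ Real.exp 2 := by
    have h3 : Real.exp 2 = Real.exp 1 * Real.exp 1 := by
      rw [← Real.exp_add]
      norm_num
    have h4 := Real.exp_one_gt_d9
    rw [h3]
    nlinarith
  have h1 : 4 * ((j + 1 : ℕ) : ℝ) + 2 ≤ Real.exp (2 * ((j + 1 : ℕ) : ℝ)) := by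
    push_cast
    have e1 : Real.exp (2 * ((j : ℝ) + 1)) = Real.exp 2 * Real.exp (2 * j) := by
      rw [← Real.exp_add]
      congr 1
      ring
    have e2 := Real.add_one_le_exp (2 * (j : ℝ))
    rw [e1]
    have e3 : 7 * (2 * (j : ℝ) + 1) ≤ Real.exp 2 * Real.exp (2 * j) :=
      mul_le_mul he2 e2 (by positivity) (Real.exp_pos _).le
    linarith
  have h2 : (4 * ((j + 1 : ℕ) : ℝ) + 2) ^ k * Real.exp (-(4 * ((j + 1 : ℕ) : ℝ) * k))
      ≤ Real.exp (-(2 * ((j + 1 : ℕ) : ℝ) * k)) := by
    calc (4 * ((j + 1 : ℕ) : ℝ) + 2) ^ k * Real.exp (-(4 * ((j + 1 : ℕ) : ℝ) * k))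
        ≤ (Real.exp (2 * ((j + 1 : ℕ) : ℝ))) ^ k * Real.exp (-(4 * ((j + 1 : ℕ) : ℝ) * k)) := by
          apply mul_le_mul_of_nonneg_right _ (Real.exp_pos _).le
          exact pow_le_pow_left₀ (by positivity) h1 _
      _ = Real.exp (-(2 * ((j + 1 : ℕ) : ℝ) * k)) := by
          rw [← Real.exp_nat_mul, ← Real.exp_add]
          congr 1
          ring
  have h3 : Real.exp (-(2 * ((j + 1 : ℕ) : ℝ) * k)) ≤
      Real.exp (-(2 * (k : ℝ))) * (1 / 4) ^ j := by
    have e1 : Real.exp (-(2 * ((j + 1 : ℕ) : ℝ) * k)) =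
        Real.exp (-(2 * (k : ℝ))) * (Real.exp (-(2 * (k : ℝ)))) ^ j := by
      rw [← Real.exp_nat_mul, ← Real.exp_add]
      congr 1
      push_cast
      ring
    rw [e1]
    apply mul_le_mul_of_nonneg_left _ (Real.exp_pos _).le
    apply pow_le_pow_left₀ (Real.exp_pos _).le
    calc Real.exp (-(2 * (k : ℝ))) ≤ Real.exp (-2) := Real.exp_le_exp.2 (by linarith)
      _ = (Real.exp 2)⁻¹ := Real.exp_neg 2
      _ ≤ (7 : ℝ)⁻¹ := inv_anti₀ (by norm_num) he2
      _ ≤ 1 / 4 := by norm_num
  have h4 : 4 * ((j + 1 : ℕ) : ℝ) + 2 ≤ 6 * 2 ^ j := by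
    have h5 : j + 1 ≤ 2 ^ j := Nat.lt_two_pow_self
    have h6 : ((j + 1 : ℕ) : ℝ) ≤ 2 ^ j := by exact_mod_cast h5
    push_cast at h6 ⊢
    linarith
  calc (4 * ((j + 1 : ℕ) : ℝ) + 2) ^ (k + 1) * Real.exp (-(4 * ((j + 1 : ℕ) : ℝ) * k))
      = (4 * ((j + 1 : ℕ) : ℝ) + 2) *
        ((4 * ((j + 1 : ℕ) : ℝ) + 2) ^ k * Real.exp (-(4 * ((j + 1 : ℕ) : ℝ) * k))) := by
        rw [pow_succ]
        ring
    _ ≤ (6 * 2 ^ j) * (Real.exp (-(2 * (k : ℝ))) * (1 / 4) ^ j) :=
        mul_le_mul h4 (h2.trans h3) (by positivity) (by positivity)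
    _ = 12 * Real.exp (-(2 * (k : ℝ))) * (1 / 2) ^ (j + 1) := by
        have e1 : (2 : ℝ) ^ j * (1 / 4) ^ j = (1 / 2) ^ j := by
          rw [← mul_pow]
          norm_num
        rw [pow_succ]
        calc (6 * (2 : ℝ) ^ j) * (Real.exp (-(2 * (k : ℝ))) * (1 / 4) ^ j)
            = 6 * Real.exp (-(2 * (k : ℝ))) * ((2 : ℝ) ^ j * (1 / 4) ^ j) := by ring
          _ = _ := by
            rw [e1]
            ring

theorem cn : StmtCN := by
  refine ⟨8640, by norm_num, fun x k q a v η hx hk hkx hq hη hη1 hqx hv hvx => ?_⟩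
  have hx16r : (16 : ℝ) ≤ x := by exact_mod_cast hx
  have hx0 : (0 : ℝ) < x := by linarith
  have hlx : 0 < Real.log x := Real.log_pos (by linarith)
  have hlx1 : 1 ≤ Real.log x := by
    rw [Real.le_log_iff_exp_le hx0]
    have := Real.exp_one_lt_d9
    linarith
  have hv0 : 0 < v := by linarith
  have hv1 : 1 ≤ v := by linarith
  have hq0 : (0 : ℝ) < q := by exact_mod_cast hq
  have hk1 : (1 : ℝ) ≤ k := by exact_mod_cast hk
  have hf0 : (0 : ℝ) < k.factorial := by exact_mod_cast Nat.factorial_pos k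
  have hm0pos : 0 < m0 x k := by
    unfold m0
    positivity
  have hlv : Real.log x - Real.log 16 ≤ Real.log v := by
    rw [← Real.log_div hx0.ne' (by norm_num)]
    exact Real.log_le_log (by positivity) hv
  have hlvx : Real.log v ≤ Real.log x := Real.log_le_log hv0 hvx
  set f : ℕ → ℝ := fun n => (if 4 * x < n ∧ n ≡ a [MOD q] then fk x k n else 0) * pe x v η n
    with hf
  have hf_nonneg : ∀ n, 0 ≤ f n := by
    intro n
    apply mul_nonneg _ (pe_nonneg x v η n)
    split_ifs
    · exact fk_nonneg x k n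
    · exact le_refl _
  have hf_le : ∀ n, f n ≤ fk x k n := by
    intro n
    have h1 : (if 4 * x < n ∧ n ≡ a [MOD q] then fk x k n else 0) ≤ fk x k n := by
      split_ifs
      · exact le_refl _
      · exact fk_nonneg x k n
    have h2 : 0 ≤ (if 4 * x < n ∧ n ≡ a [MOD q] then fk x k n else 0) := by
      split_ifs
      · exact fk_nonneg x k n
      · exact le_refl _
    calc f n ≤ (if 4 * x < n ∧ n ≡ a [MOD q] then fk x k n else 0) * 1 :=
          mul_le_mul_of_nonneg_left (pe_le_one hx hη n) h2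
      _ ≤ fk x k n := by rw [mul_one]; exact h1
  set y : ℕ → ℝ := fun r => v * (x : ℝ) ^ (4 * r) with hy
  have hy0 : ∀ r, 0 < y r := fun r => by positivity
  have hly : ∀ r : ℕ, Real.log (y r) = Real.log v + 4 * r * Real.log x := by
    intro r
    rw [hy]
    dsimp only
    rw [Real.log_mul hv0.ne' (by positivity), Real.log_pow]
    push_cast
    ring
  set F : ℕ → ℝ := fun r => ((4 * (r : ℝ) + 2) * Real.log x) ^ (k + 1) / (k.factorial : ℝ) *
    (3 / y r) * (48 * Real.exp (-(k : ℝ) - 4 * r * k)) with hF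
  have hF0 : ∀ r, 0 ≤ F r := fun r => by
    have := hy0 r
    positivity
  -- a bound for the terms
  have hterm : ∀ r n : ℕ, 4 * x < n →
      |Real.log n - (Real.log v + 4 * r * Real.log x)| < η → fk x k n ≤ F r := by
    intro r n hxn hab
    have hn0 : (0 : ℝ) < n := by exact_mod_cast (by omega : 0 < n)
    rw [abs_lt] at hab
    have hln : Real.log n ≤ (4 * (r : ℝ) + 2) * Real.log x := by
      linarith [hab.2]
    have hln0 : 0 ≤ Real.log n := Real.log_natCast_nonneg n
    have hln2 : (1 + 4 * (r : ℝ)) * Real.log x - (Real.log 16 + 1) ≤ Real.log n := by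
      linarith [hab.1]
    have hp : (n : ℝ) ^ (-(1 + k / Real.log x)) ≤
        (3 / y r) * (48 * Real.exp (-(k : ℝ) - 4 * r * k)) := by
      have e1 : (n : ℝ) ^ (-(1 + k / Real.log x)) =
          (n : ℝ)⁻¹ * (n : ℝ) ^ (-(k / Real.log x)) := by
        rw [show -(1 + k / Real.log x) = -1 + -(k / Real.log x) by ring, Real.rpow_add hn0,
          Real.rpow_neg_one]
      have e2 : (n : ℝ)⁻¹ ≤ 3 / y r := by
        have h1 : Real.log (y r) ≤ Real.log (3 * n) := by
          rw [hly, Real.log_mul (by norm_num) hn0.ne']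
          have h3 : 1 ≤ Real.log 3 := by
            rw [Real.le_log_iff_exp_le (by norm_num)]
            have := Real.exp_one_lt_d9
            linarith
          linarith [hab.1]
        have h2 := (Real.log_le_log_iff (hy0 r) (by positivity)).1 h1
        rw [le_div_iff₀ (hy0 r), inv_mul_eq_div, div_le_iff₀ hn0]
        exact h2
      have e3 : (n : ℝ) ^ (-(k / Real.log x)) ≤ 48 * Real.exp (-(k : ℝ) - 4 * r * k) := by
        rw [Real.rpow_def_of_pos hn0]
        have h48 : Real.exp (Real.log 16 + 1) ≤ 48 := by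
          rw [Real.exp_add, Real.exp_log (by norm_num)]
          have := Real.exp_one_lt_d9
          linarith
        calc Real.exp (Real.log n * -(k / Real.log x))
            ≤ Real.exp ((Real.log 16 + 1) + (-(k : ℝ) - 4 * r * k)) := by
              apply Real.exp_le_exp.2
              have g0 : 0 ≤ (k : ℝ) / Real.log x := by positivity
              have g1 : ((1 + 4 * (r : ℝ)) * Real.log x - (Real.log 16 + 1)) *
                  (k / Real.log x) ≤ Real.log n * (k / Real.log x) :=
                mul_le_mul_of_nonneg_right hln2 g0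
              have g2 : ((1 + 4 * (r : ℝ)) * Real.log x - (Real.log 16 + 1)) *
                  (k / Real.log x) = k * (1 + 4 * (r : ℝ))
                    - (Real.log 16 + 1) * (k / Real.log x) := by
                field_simp
              have g3 : (Real.log 16 + 1) * ((k : ℝ) / Real.log x) ≤ (Real.log 16 + 1) * 1 := by
                apply mul_le_mul_of_nonneg_left _
                  (by have := Real.log_nonneg (show (1 : ℝ) ≤ 16 by norm_num); linarith)
                rw [div_le_one hlx]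
                exact hkx
              linarith
          _ = Real.exp (Real.log 16 + 1) * Real.exp (-(k : ℝ) - 4 * r * k) := Real.exp_add _ _
          _ ≤ _ := mul_le_mul_of_nonneg_right h48 (Real.exp_pos _).le
      rw [e1]
      have := hy0 r
      exact mul_le_mul e2 e3 (by positivity) (by positivity)
    have hΛ : ArithmeticFunction.vonMangoldt n ≤ Real.log n :=
      ArithmeticFunction.vonMangoldt_le_log
    unfold fk
    calc ArithmeticFunction.vonMangoldt n * (Real.log n ^ k / (k.factorial : ℝ)) *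
          (n : ℝ) ^ (-(1 + k / Real.log x))
        ≤ (((4 * (r : ℝ) + 2) * Real.log x) *
            (((4 * (r : ℝ) + 2) * Real.log x) ^ k / (k.factorial : ℝ))) *
            ((3 / y r) * (48 * Real.exp (-(k : ℝ) - 4 * r * k))) := by
          apply mul_le_mul _ hp (by positivity) (by positivity)
          apply mul_le_mul (hΛ.trans hln) _ (by positivity) (by positivity)
          apply div_le_div_of_nonneg_right _ hf0.le
          exact pow_le_pow_left₀ hln0 hln k
      _ = F r := by
          rw [hF]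
          ring
  -- partial sums
  have hmain : ∀ N : ℕ, ∑ n ∈ range N, f n
      ≤ 8640 * (η / q) * Real.log x * m0 x k * Real.exp (-(2 * (k : ℝ))) := by
    intro N
    set S : ℕ → ℕ → Prop := fun r n =>
      n ∈ (Ioc ⌊y r * Real.exp (-η)⌋₊ ⌊y r * Real.exp η⌋₊).filter (fun n => n ≡ a [MOD q]) with hS
    have hpoint : ∀ n ∈ range N, f n ≤ ∑ r ∈ Icc 1 N, if S r n then F r else 0 := by
      intro n hn
      rw [mem_range] at hn
      have hnn : ∀ r ∈ Icc 1 N, 0 ≤ (if S r n then F r else 0) := by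
        intro r _
        split_ifs
        · exact hF0 r
        · exact le_refl _
      by_cases hfn : f n = 0
      · rw [hfn]
        exact sum_nonneg hnn
      · have h1 : (4 * x < n ∧ n ≡ a [MOD q]) ∧ pe x v η n ≠ 0 := by
          constructor
          · by_contra h
            apply hfn
            rw [hf]
            simp only [if_neg h, zero_mul]
          · intro h
            apply hfn
            rw [hf]
            simp only [h, mul_zero]
        obtain ⟨r, hr1, hr2⟩ := pe_support hx hv0 hvx hη hη1 h1.1.1 h1.2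
        have hn0 : (0 : ℝ) < n := by exact_mod_cast (by omega : 0 < n)
        have hr3 := abs_lt.1 hr2
        rw [← hly] at hr3
        have hlow : y r * Real.exp (-η) < n := by
          have h2 : Real.log (y r * Real.exp (-η)) < Real.log n := by
            rw [Real.log_mul (hy0 r).ne' (Real.exp_pos _).ne', Real.log_exp]
            linarith [hr3.1]
          exact (Real.log_lt_log_iff (mul_pos (hy0 r) (Real.exp_pos _)) hn0).1 h2
        have hupp : (n : ℝ) < y r * Real.exp η := by
          have h2 : Real.log n < Real.log (y r * Real.exp η) := by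
            rw [Real.log_mul (hy0 r).ne' (Real.exp_pos _).ne', Real.log_exp]
            linarith [hr3.2]
          exact (Real.log_lt_log_iff hn0 (mul_pos (hy0 r) (Real.exp_pos _))).1 h2
        have hrN : r ≤ N := by
          have h2 : (r : ℝ) < n := by
            have h5 : (1 : ℝ) / 3 ≤ Real.exp (-η) := by
              calc (1 : ℝ) / 3 ≤ (Real.exp 1)⁻¹ := by
                    rw [one_div]
                    apply inv_anti₀ (Real.exp_pos _)
                    have := Real.exp_one_lt_d9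
                    linarith
                _ = Real.exp (-1) := (Real.exp_neg 1).symm
                _ ≤ _ := Real.exp_le_exp.2 (by linarith)
            have h6 : (16 : ℝ) ^ r ≤ y r := by
              calc (16 : ℝ) ^ r ≤ (16 : ℝ) ^ (4 * r) :=
                    pow_le_pow_right₀ (by norm_num) (by omega)
                _ ≤ (x : ℝ) ^ (4 * r) := pow_le_pow_left₀ (by norm_num) hx16r _
                _ ≤ v * (x : ℝ) ^ (4 * r) := le_mul_of_one_le_left (by positivity) hv1
            have h7 : (3 * r : ℝ) < 16 ^ r := by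
              have h8 : r < 2 ^ r := Nat.lt_two_pow_self
              have h9 : 8 ^ r ≥ 8 := by
                calc 8 = 8 ^ 1 := by norm_num
                  _ ≤ 8 ^ r := Nat.pow_le_pow_right (by norm_num) hr1
              have h10 : 3 * r < 16 ^ r := by
                calc 3 * r < 8 * 2 ^ r := by omega
                  _ ≤ 8 ^ r * 2 ^ r := Nat.mul_le_mul_right _ h9
                  _ = 16 ^ r := by rw [← mul_pow]; norm_num
              exact_mod_cast h10
            calc (r : ℝ) = (3 * r) * (1 / 3) := by ring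
              _ < 16 ^ r * (1 / 3) := mul_lt_mul_of_pos_right h7 (by norm_num)
              _ ≤ y r * Real.exp (-η) := mul_le_mul h6 h5 (by norm_num) (hy0 r).le
              _ < n := hlow
          have h3 : r < n := by exact_mod_cast h2
          omega
        have hSr : S r n := by
          rw [hS]
          dsimp only
          rw [mem_filter, mem_Ioc]
          refine ⟨⟨?_, ?_⟩, h1.1.2⟩
          · rw [Nat.floor_lt (mul_pos (hy0 r) (Real.exp_pos _)).le]
            exact hlow
          · exact Nat.le_floor hupp.le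
        calc f n ≤ fk x k n := hf_le n
          _ ≤ F r := hterm r n h1.1.1 hr2
          _ = (if S r n then F r else 0) := by rw [if_pos hSr]
          _ ≤ _ := single_le_sum hnn (mem_Icc.2 ⟨hr1, hrN⟩)
    have hcount : ∀ r, 1 ≤ r → ∑ n ∈ range N, (if S r n then F r else 0) ≤
        F r * (5 * η * y r / q) := by
      intro r hr
      rw [← sum_filter, sum_const, nsmul_eq_mul, mul_comm]
      apply mul_le_mul_of_nonneg_left _ (hF0 r)
      have h1 : ((range N).filter (fun n => S r n)).card ≤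
          ((Ioc ⌊y r * Real.exp (-η)⌋₊ ⌊y r * Real.exp η⌋₊).filter
            (fun n => n ≡ a [MOD q])).card := by
        apply card_le_card
        intro n hn
        rw [mem_filter] at hn
        exact hn.2
      have h2 := card_le hq a (A := y r * Real.exp (-η)) (B := y r * Real.exp η)
        (mul_pos (hy0 r) (Real.exp_pos _)).le
        (mul_le_mul_of_nonneg_left (Real.exp_le_exp.2 (by linarith)) (hy0 r).le)
      have h3 : (((range N).filter (fun n => S r n)).card : ℝ) ≤
          (((Ioc ⌊y r * Real.exp (-η)⌋₊ ⌊y r * Real.exp η⌋₊).filter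
            (fun n => n ≡ a [MOD q])).card : ℝ) := by
        exact_mod_cast h1
      have h4 : (1 : ℝ) ≤ η * y r / q := by
        rw [le_div_iff₀ hq0, one_mul]
        have h5 : (x : ℝ) ≤ y r := by
          calc (x : ℝ) = 1 * (x : ℝ) ^ 1 := by ring
            _ ≤ v * (x : ℝ) ^ (4 * r) := by
              apply mul_le_mul hv1 _ (by positivity) hv0.le
              exact pow_le_pow_right₀ (by linarith) (by omega)
        calc (q : ℝ) ≤ η * x := hqx
          _ ≤ η * y r := mul_le_mul_of_nonneg_left h5 hη.le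
      have h6 : (y r * Real.exp η - y r * Real.exp (-η)) / q ≤ 3 * (η * y r / q) := by
        have h7 := exp_sub_le hη.le hη1
        rw [← mul_sub]
        calc y r * (Real.exp η - Real.exp (-η)) / q ≤ y r * (3 * η) / q := by
              apply div_le_div_of_nonneg_right _ hq0.le
              exact mul_le_mul_of_nonneg_left h7 (hy0 r).le
          _ = _ := by ring
      have h8 : 5 * η * y r / q = 5 * (η * y r / q) := by ring
      rw [h8]
      linarith
    have hr_bd : ∀ r : ℕ, 1 ≤ r → F r * (5 * η * y r / q) ≤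
        8640 * (η / q) * Real.log x * m0 x k * Real.exp (-(2 * (k : ℝ))) * (1 / 2) ^ r := by
      intro r hr
      have h2 := r_bd hr hk
      have h3 : F r * (5 * η * y r / q) = 720 * (η / q) * Real.log x * m0 x k *
          ((4 * (r : ℝ) + 2) ^ (k + 1) * Real.exp (-(4 * r * k))) := by
        rw [hF]
        unfold m0
        have e1 : Real.exp (-(k : ℝ) - 4 * r * k) =
            Real.exp (-(k : ℝ)) * Real.exp (-(4 * r * k)) := by
          rw [← Real.exp_add]
          congr 1
        dsimp only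
        rw [e1, mul_pow, pow_succ (Real.log x) k]
        have hyr := (hy0 r).ne'
        field_simp
        norm_num
      rw [h3]
      calc 720 * (η / q) * Real.log x * m0 x k *
          ((4 * (r : ℝ) + 2) ^ (k + 1) * Real.exp (-(4 * r * k)))
          ≤ 720 * (η / q) * Real.log x * m0 x k *
            (12 * Real.exp (-(2 * (k : ℝ))) * (1 / 2) ^ r) :=
            mul_le_mul_of_nonneg_left h2 (by positivity)
        _ = _ := by ring
    calc ∑ n ∈ range N, f n
        ≤ ∑ n ∈ range N, ∑ r ∈ Icc 1 N, (if S r n then F r else 0) := sum_le_sum hpoint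
      _ = ∑ r ∈ Icc 1 N, ∑ n ∈ range N, (if S r n then F r else 0) := sum_comm
      _ ≤ ∑ r ∈ Icc 1 N,
          8640 * (η / q) * Real.log x * m0 x k * Real.exp (-(2 * (k : ℝ))) * (1 / 2) ^ r :=
          sum_le_sum fun r hr =>
            (hcount r (mem_Icc.1 hr).1).trans (hr_bd r (mem_Icc.1 hr).1)
      _ = 8640 * (η / q) * Real.log x * m0 x k * Real.exp (-(2 * (k : ℝ))) *
          ∑ r ∈ Icc 1 N, (1 / 2) ^ r := by rw [mul_sum]
      _ ≤ 8640 * (η / q) * Real.log x * m0 x k * Real.exp (-(2 * (k : ℝ))) * 1 :=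
          mul_le_mul_of_nonneg_left (half_sum N) (by positivity)
      _ = _ := mul_one _
  exact ⟨summable_of_sum_range_le hf_nonneg hmain, Real.tsum_le_of_sum_range_le hf_nonneg hmain⟩

end Pool.Agent.Helper22.TW
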